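import Mathlib

set_option autoImplicit false

namespace Pool.Agent.Results.MP_01622d_an.Counter

open Polynomial Set

noncomputable def w : ℝ[X] := C 39 * X ^ 4 + C 3 * X ^ 3 - C 61 * X ^ 2 - C 3 * X + C 23

noncomputable def q : ℝ[X] := -C 30 * X ^ 4 + C 10 * X ^ 3 + C 57 * X ^ 2 - C 9 * X - C 27

theorem w_eval (x : ℝ) : w.eval x = 39 * x ^ 4 + 3 * x ^ 3 - 61 * x ^ 2 - 3 * x + 23 := by
  simp [w]

theorem q_eval (x : ℝ) : q.eval x = -30 * x ^ 4 + 10 * x ^ 3 + 57 * x ^ 2 - 9 * x - 27 := by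
  simp [q]

theorem w_der (x : ℝ) : (derivative w).eval x = 156 * x ^ 3 + 9 * x ^ 2 - 122 * x - 3 := by
  simp [w]
  ring

theorem q_der (x : ℝ) : (derivative q).eval x = -120 * x ^ 3 + 30 * x ^ 2 + 114 * x - 9 := by
  simp [q]
  ring

theorem result : ∃ (n k : ℕ) (μ : ℝ → ℝ) (ω p : ℝ[X]) (τ : Fin (n + 1) → ℝ),
    1 ≤ k ∧ k ≤ n ∧ Continuous μ ∧ (∀ x, 0 < μ x) ∧ ω.natDegree ≤ n ∧ p.natDegree ≤ n ∧
    (∀ x ∈ Icc (-1 : ℝ) 1, |ω.eval x| ≤ μ x) ∧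
    StrictAnti τ ∧ (∀ i, τ i ∈ Icc (-1 : ℝ) 1) ∧
    (∀ i, ω.eval (τ i) = (-1) ^ (i : ℕ) * μ (τ i)) ∧
    (∀ x ∈ Icc (-1 : ℝ) 1, |p.eval x| ≤ μ x) ∧
    ∃ x ∈ Icc (-1 : ℝ) 1, ∀ y ∈ Icc (-1 : ℝ) 1,
      |(derivative^[k] ω).eval y| < |(derivative^[k] p).eval x| := by
  refine ⟨4, 1, fun x => max (max |w.eval x| |q.eval x|) (1 / 4), w, q,
    ![1, 19 / 20, -11 / 20, -9 / 10, -1], le_rfl, by norm_num, by fun_prop,
    fun x => lt_max_of_lt_right (by norm_num), ?_, ?_,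
    fun x _ => le_max_of_le_left (le_max_left _ _), ?_, ?_, ?_,
    fun x _ => le_max_of_le_left (le_max_right _ _), 13 / 20, by norm_num, fun y hy => ?_⟩
  · unfold w
    compute_degree
  · unfold q
    compute_degree
  · refine Fin.strictAnti_iff_succ_lt.mpr fun i => ?_
    fin_cases i <;> simp <;> norm_num
  · intro i
    fin_cases i <;> simp <;> norm_num
  · intro i
    fin_cases i <;> simp [w_eval, q_eval] <;> norm_num [abs_of_pos, abs_of_neg]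
  · simp only [Function.iterate_one, w_der, q_der]
    obtain ⟨h1, h2⟩ := hy
    have a : 0 ≤ 1 - y := by linarith
    have b : 0 ≤ 1 + y := by linarith
    rw [abs_of_pos (a := -120 * (13 / 20 : ℝ) ^ 3 + 30 * (13 / 20) ^ 2 + 114 * (13 / 20) - 9)
      (by norm_num), abs_lt]
    constructor
    · nlinarith [mul_nonneg b (sq_nonneg (y - 1 / 2)), sq_nonneg (y - 1 / 2)]
    · nlinarith [mul_nonneg a (sq_nonneg (y + 1 / 2)), sq_nonneg (y + 1 / 2)]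

end Pool.Agent.Results.MP_01622d_an.Counter
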